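import Pool.Agent.Q127.ECC.Final

/-!
# Joins with large cliques and the list color function (MP_e82249_co, Q1)

The definitions are in `Pool.Agent.Q127.ECC.Defs`.
-/

set_option autoImplicit false

namespace Pool.Agent.Results.MP_e82249_co.JoinLargeClique

/-- For every finite nonempty simple graph `G` there is `p ≥ 1` such that the join of `G` and the
complete graph on `p` vertices is enumeratively chromatic-choosable. -/
theorem result (V : Type*) [Fintype V] [Nonempty V] (G : SimpleGraph V) :
    ∃ p : ℕ, 1 ≤ p ∧ Q127.ECC.EnumChromChoosable
      (Q127.ECC.join G (⊤ : SimpleGraph (Fin p))) :=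
  Q127.ECC.enumChromChoosable_join G

end Pool.Agent.Results.MP_e82249_co.JoinLargeClique
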